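import Pool.Agent.HIK.Stmts

/-! Row INT of squad HIK: if the interpolation determinant vanishes then the last point lies on the
interpolating polynomial of the others (over any field). -/

set_option autoImplicit false

namespace Pool.Agent.HIK.H76

open Polynomial Pool.Agent.HIK

theorem int : IntStmt := by
  intro F _ N s a y ha hdet P hP hPe
  set A : Matrix (Fin (N + 1)) (Fin (N + 1)) F := interpMatK N (fun i => a i - s) y with hA
  obtain ⟨v, hv0, hv⟩ := Matrix.exists_mulVec_eq_zero_iff.2 hdet
  -- the polynomial part
  let Q0 : F[X] := ∑ k : Fin N, C (v k.castSucc) * X ^ (k : ℕ)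
  let Q : F[X] := Q0.comp (X - C s)
  have hQ0deg : Q0.degree < N := by
    refine (Polynomial.degree_sum_le _ _).trans_lt ?_
    refine (Finset.sup_lt_iff (α := WithBot ℕ) (a := (N : WithBot ℕ)) (WithBot.bot_lt_coe N)).2 ?_
    intro k _
    refine (degree_C_mul_X_pow_le _ _).trans_lt ?_
    exact_mod_cast k.2
  have hback : Q0 = Q.comp (X + C s) := by
    simp only [Q, comp_assoc]; simp
  have hQdeg : Q.degree < N := by
    by_cases h : Q0 = 0
    · simp only [Q, h, zero_comp, degree_zero]; exact WithBot.bot_lt_coe N
    · have hc : Q ≠ 0 := by
        intro hq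
        apply h
        rw [hback, hq, zero_comp]
      rw [degree_eq_natDegree hc]
      rw [degree_eq_natDegree h] at hQ0deg
      simp only [Q, natDegree_comp, natDegree_X_sub_C, mul_one]
      exact hQ0deg
  have heq : ∀ i, Q.eval (a i) + v (Fin.last N) * y i = 0 := by
    intro i
    have h1 := congrFun hv i
    simp only [Matrix.mulVec, dotProduct, Pi.zero_apply, hA, interpMatK, Matrix.of_apply] at h1
    rw [Fin.sum_univ_castSucc] at h1
    simp only [Fin.val_castSucc, Fin.is_lt, if_true, Fin.val_last, lt_irrefl, if_false] at h1
    simp only [Q, Q0, eval_comp, eval_finsetSum, eval_mul, eval_C, eval_pow, eval_X, eval_sub]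
    rw [← h1]
    congr 1
    · exact Finset.sum_congr rfl fun k _ => by ring
    · ring
  have hlast : v (Fin.last N) ≠ 0 := by
    intro h0
    have hQz : Q = 0 := by
      refine Polynomial.eq_zero_of_natDegree_lt_card_of_eval_eq_zero Q ha
        (fun i => by simpa [h0] using heq i) ?_
      rw [Fintype.card_fin]
      by_cases h : Q = 0
      · simp [h]
      · rw [degree_eq_natDegree h] at hQdeg
        have : Q.natDegree < N := by exact_mod_cast hQdeg
        omega
    have hQ0z : Q0 = 0 := by
      rw [hback, hQz, zero_comp]
    apply hv0
    funext i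
    refine Fin.lastCases h0 (fun k => ?_) i
    have h3 : Q0.coeff (k : ℕ) = v k.castSucc := by
      simp only [Q0, finsetSum_coeff, coeff_C_mul, coeff_X_pow]
      rw [Finset.sum_eq_single k]
      · simp
      · intro l _ hl
        have : (k : ℕ) ≠ l := fun h => hl (Fin.ext h.symm)
        simp [this]
      · simp
    rw [← h3, hQ0z, coeff_zero, Pi.zero_apply]
  -- now compare with `P`
  have hR : P + C (v (Fin.last N))⁻¹ * Q = 0 := by
    rcases Nat.eq_zero_or_pos N with hN | hN
    · subst hN
      have h1 : P = 0 := by
        by_contra h
        rw [degree_eq_natDegree h] at hP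
        exact absurd hP (by simp)
      have h2 : Q = 0 := by
        by_contra h
        rw [degree_eq_natDegree h] at hQdeg
        exact absurd hQdeg (by simp)
      simp [h1, h2]
    refine Polynomial.eq_zero_of_natDegree_lt_card_of_eval_eq_zero _
      (f := fun i : Fin N => a i.castSucc) ?_ ?_ ?_
    · intro i j hij
      exact Fin.castSucc_injective N (ha hij)
    · intro i
      have := heq i.castSucc
      simp only [eval_add, hPe, eval_mul, eval_C]
      field_simp
      linear_combination this
    · rw [Fintype.card_fin]
      by_cases h : P + C (v (Fin.last N))⁻¹ * Q = 0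
      · rw [h, natDegree_zero]; exact hN
      · have h1 : (P + C (v (Fin.last N))⁻¹ * Q).degree < N := by
          refine (degree_add_le _ _).trans_lt (max_lt hP ?_)
          refine (degree_mul_le _ _).trans_lt ?_
          refine lt_of_le_of_lt ?_ hQdeg
          calc (C (v (Fin.last N))⁻¹).degree + Q.degree ≤ 0 + Q.degree := by
                gcongr; exact degree_C_le
            _ = Q.degree := zero_add _
        rw [degree_eq_natDegree h] at h1
        exact_mod_cast h1
  have h4 := congrArg (fun R : F[X] => R.eval (a (Fin.last N))) hR
  simp only [eval_add, eval_mul, eval_C, eval_zero] at h4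
  have h5 := heq (Fin.last N)
  have h6 : P.eval (a (Fin.last N)) =
      - ((v (Fin.last N))⁻¹ * Q.eval (a (Fin.last N))) := by linear_combination h4
  rw [h6]
  field_simp
  linear_combination -h5

end Pool.Agent.HIK.H76
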